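import Mathlib

set_option autoImplicit false

noncomputable section

namespace Pool.Agent.Helper41K9.SR

open Module

variable {F V : Type*} [Field F] [AddCommGroup V] [Module F V] {n : ℕ}

/-- A family which is unitriangular with respect to a basis is a basis. -/
lemma exists_tri_basis (b : Basis (Fin n) F V) (c : Fin n → V)
    (h1 : ∀ j, b.repr (c j) j = 1) (h2 : ∀ j m, j < m → b.repr (c j) m = 0) :
    ∃ c' : Basis (Fin n) F V, (∀ j, c' j = c j) ∧ ∀ j m, c'.repr (b j) m ≠ 0 → m ≤ j := by
  have hspan : ∀ j : Fin n, b j ∈ Submodule.span F (c '' {m | m ≤ j}) := by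
    intro j
    induction j using WellFoundedLT.induction with
    | ind j ih =>
      have h3 : b j = c j - ∑ m ∈ Finset.univ.erase j, b.repr (c j) m • b m := by
        have h4 := b.sum_repr (c j)
        rw [← Finset.add_sum_erase _ _ (Finset.mem_univ j), h1, one_smul] at h4
        rw [eq_sub_iff_add_eq]
        exact h4
      rw [h3]
      refine Submodule.sub_mem _ (Submodule.subset_span ⟨j, le_refl j, rfl⟩)
        (Submodule.sum_mem _ fun m hm => ?_)
      have hmj : m ≠ j := Finset.ne_of_mem_erase hm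
      rcases lt_or_gt_of_ne hmj with h | h
      · refine Submodule.smul_mem _ _ (Submodule.span_mono ?_ (ih m h))
        exact Set.image_mono fun l (hl : l ≤ m) => le_trans hl h.le
      · rw [h2 j m h, zero_smul]
        exact Submodule.zero_mem _
  have htop : ⊤ ≤ Submodule.span F (Set.range c) := by
    rw [← b.span_eq, Submodule.span_le]
    rintro _ ⟨j, rfl⟩
    exact Submodule.span_mono (Set.image_subset_range _ _) (hspan j)
  set c' := basisOfTopLeSpanOfCardEqFinrank c htop (finrank_eq_card_basis b).symm with hc'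
  have hcc : ⇑c' = c := coe_basisOfTopLeSpanOfCardEqFinrank _ _ _
  refine ⟨c', fun j => by rw [hcc], fun j m hm => ?_⟩
  have h5 := hspan j
  rw [← hcc] at h5
  have h6 := c'.repr_support_subset_of_mem_span _ h5
  exact h6 (Finsupp.mem_support_iff.2 hm)

/-- The leading index plus one. -/
def lead (b : Basis (Fin n) F V) (x : V) : ℕ := (b.repr x).support.sup fun m => (m : ℕ) + 1

lemma lt_lead (b : Basis (Fin n) F V) (x : V) (m : Fin n) (h : b.repr x m ≠ 0) :
    (m : ℕ) < lead b x :=
  Finset.le_sup (f := fun m : Fin n => (m : ℕ) + 1) (Finsupp.mem_support_iff.2 h)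

lemma lead_le (b : Basis (Fin n) F V) (x : V) (N : ℕ)
    (h : ∀ m, b.repr x m ≠ 0 → (m : ℕ) < N) : lead b x ≤ N :=
  Finset.sup_le fun m hm => h m (Finsupp.mem_support_iff.1 hm)

lemma exists_lead (b : Basis (Fin n) F V) (x : V) (hx : x ≠ 0) :
    ∃ m : Fin n, b.repr x m ≠ 0 ∧ lead b x = m + 1 := by
  have h1 : (b.repr x).support.Nonempty := by
    rw [Finsupp.support_nonempty_iff]
    simpa using hx
  obtain ⟨m, hm, hmm⟩ := Finset.exists_mem_eq_sup _ h1 (fun m : Fin n => (m : ℕ) + 1)
  exact ⟨m, Finsupp.mem_support_iff.1 hm, hmm⟩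

/-- Two complete flags have a common adapted basis. -/
lemma common_basis (b b' : Basis (Fin n) F V) :
    ∃ (c : Basis (Fin n) F V) (π : Equiv.Perm (Fin n)),
      (∀ j, b.repr (c j) j = 1) ∧ (∀ j m, b.repr (c j) m ≠ 0 → m ≤ j) ∧
      (∀ j m, c.repr (b j) m ≠ 0 → m ≤ j) ∧ (∀ j m, b'.repr (c j) m ≠ 0 → m ≤ π j) := by
  set A : Fin n → Set V := fun j => {x | b.repr x j = 1 ∧ ∀ m, j < m → b.repr x m = 0} with hA
  have hmin : ∀ j, ∃ x ∈ A j, ∀ y ∈ A j, lead b' x ≤ lead b' y := by
    intro j
    have hne : ((lead b') '' (A j)).Nonempty := by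
      refine ⟨_, b j, ⟨by simp, fun m hm => ?_⟩, rfl⟩
      rw [b.repr_self, Finsupp.single_eq_of_ne (ne_of_gt hm)]
    obtain ⟨x, hx, hxe⟩ := Nat.sInf_mem hne
    refine ⟨x, hx, fun y hy => ?_⟩
    rw [hxe]
    exact Nat.sInf_le ⟨y, hy, rfl⟩
  choose c hcA hcmin using hmin
  obtain ⟨c', hc', hc'2⟩ := exists_tri_basis b c (fun j => (hcA j).1) (fun j m h => (hcA j).2 m h)
  have hc0 : ∀ j, c j ≠ 0 := fun j => by rw [← hc']; exact c'.ne_zero j
  choose p hp1 hp2 using fun j => exists_lead b' (c j) (hc0 j)
  have key : ∀ j k : Fin n, j < k → p j ≠ p k := by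
    intro j k hjk h
    set y := c k - (b'.repr (c k) (p k) / b'.repr (c j) (p k)) • c j with hy
    have hne : b'.repr (c j) (p k) ≠ 0 := by rw [← h]; exact hp1 j
    have hyA : y ∈ A k := by
      constructor
      · rw [hy, map_sub, map_smul, Finsupp.sub_apply, Finsupp.smul_apply, (hcA k).1,
          (hcA j).2 k hjk, smul_zero, sub_zero]
      · intro m hm
        rw [hy, map_sub, map_smul, Finsupp.sub_apply, Finsupp.smul_apply, (hcA k).2 m hm,
          (hcA j).2 m (hjk.trans hm), smul_zero, sub_zero]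
    have h1 : lead b' y ≤ (p k : ℕ) := by
      apply lead_le
      intro m hm
      by_contra hcon
      apply hm
      rw [hy, map_sub, map_smul, Finsupp.sub_apply, Finsupp.smul_apply, smul_eq_mul]
      rcases eq_or_lt_of_le (not_lt.1 hcon) with h2 | h2
      · have h3 : m = p k := Fin.ext h2.symm
        rw [h3, div_mul_cancel₀ _ hne, sub_self]
      · have e1 : b'.repr (c k) m = 0 := by
          by_contra h3
          have := lt_lead b' (c k) m h3
          rw [hp2 k] at this
          omega
        have e2 : b'.repr (c j) m = 0 := by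
          by_contra h3
          have := lt_lead b' (c j) m h3
          rw [hp2 j, h] at this
          omega
        rw [e1, e2, mul_zero, sub_zero]
    have h4 := hcmin k y hyA
    rw [hp2 k] at h4
    omega
  have hinj : Function.Injective p := by
    intro j k h
    by_contra hne
    rcases lt_or_gt_of_ne hne with h1 | h1
    · exact key j k h1 h
    · exact key k j h1 h.symm
  refine ⟨c', Equiv.ofBijective p (Finite.injective_iff_bijective.1 hinj), ?_, ?_, hc'2, ?_⟩
  · intro j
    rw [hc']
    exact (hcA j).1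
  · intro j m h
    rw [hc'] at h
    by_contra hcon
    exact h ((hcA j).2 m (not_le.1 hcon))
  · intro j m h
    rw [hc'] at h
    have := lt_lead b' (c j) m h
    rw [hp2 j] at this
    change m ≤ p j
    exact Fin.le_def.2 (by omega)

/-- Two weighted flags have a common adapted basis. -/
lemma common_weighted (b b' : Basis (Fin n) F V) (w w' : Fin n → ℝ) :
    ∃ (c : Basis (Fin n) F V) (σ π : Equiv.Perm (Fin n)),
      (∀ j, b.repr (c j) (σ j) = 1) ∧ (∀ j m, b.repr (c j) m ≠ 0 → w m ≤ w (σ j)) ∧
      (∀ j m, c.repr (b j) m ≠ 0 → w (σ m) ≤ w j) ∧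
      (∀ j m, b'.repr (c j) m ≠ 0 → w' m ≤ w' (π j)) := by
  set σ := Tuple.sort w with hσ
  set σ' := Tuple.sort w' with hσ'
  have hm : Monotone (w ∘ σ) := Tuple.monotone_sort w
  have hm' : Monotone (w' ∘ σ') := Tuple.monotone_sort w'
  obtain ⟨c, π, h1, h2, h3, h4⟩ := common_basis (b.reindex σ.symm) (b'.reindex σ'.symm)
  refine ⟨c, σ, π.trans σ', fun j => ?_, fun j m h => ?_, fun j m h => ?_, fun j m h => ?_⟩
  · have := h1 j
    rw [Basis.repr_reindex_apply] at this
    simpa using this
  · have e1 := h2 j (σ.symm m) (by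
      rw [Basis.repr_reindex_apply]
      simpa using h)
    have e2 := hm e1
    simpa using e2
  · have e1 := h3 (σ.symm j) m (by
      rw [Basis.reindex_apply]
      simpa using h)
    have e2 := hm e1
    simpa using e2
  · have e1 := h4 j (σ'.symm m) (by
      rw [Basis.repr_reindex_apply]
      simpa using h)
    have e2 := hm' e1
    simpa using e2

end Pool.Agent.Helper41K9.SR
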