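import Mathlib
import Pool.Agent.Helper41K9.SR.Frame

set_option autoImplicit false

noncomputable section

namespace Pool.Agent.Helper41K9.SR

open Module

section General

variable {F V : Type*} [Field F] [AddCommGroup V] [Module F V] {n d : ℕ}

lemma expand_eq (f : MultilinearMap F (fun _ : Fin d => V) F)
    (b : Fin d → Basis (Fin n) F V) (x : Fin d → V) :
    f x = ∑ l : Fin d → Fin n, (∏ i, (b i).repr (x i) (l i)) * f (fun i => b i (l i)) := by
  have h1 : x = fun i => ∑ m, (b i).repr (x i) m • b i m := by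
    funext i
    exact ((b i).sum_repr (x i)).symm
  conv_lhs => rw [h1]
  rw [f.map_sum]
  refine Finset.sum_congr rfl fun l _ => ?_
  rw [f.map_smul_univ, smul_eq_mul]

lemma expand (f : MultilinearMap F (fun _ : Fin d => V) F)
    (b : Fin d → Basis (Fin n) F V) (x : Fin d → V) (h : f x ≠ 0) :
    ∃ l : Fin d → Fin n, (∀ i, (b i).repr (x i) (l i) ≠ 0) ∧ f (fun i => b i (l i)) ≠ 0 := by
  rw [expand_eq f b x] at h
  obtain ⟨l, _, hl⟩ := Finset.exists_ne_zero_of_sum_ne_zero h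
  have h2 := left_ne_zero_of_mul hl
  rw [Finset.prod_ne_zero_iff] at h2
  exact ⟨l, fun i => h2 i (Finset.mem_univ i), right_ne_zero_of_mul hl⟩

/-- The frame (b,w) certifies weight at least c for f. -/
def Good (c : ℝ) (f : MultilinearMap F (fun _ : Fin d => V) F)
    (b : Fin d → Basis (Fin n) F V) (w : Fin d → Fin n → ℝ) : Prop :=
  ∀ l : Fin d → Fin n, f (fun i => b i (l i)) ≠ 0 → c ≤ ∑ i, w i (l i)

lemma Good.of_ne {c : ℝ} {f : MultilinearMap F (fun _ : Fin d => V) F}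
    {b : Fin d → Basis (Fin n) F V} {w : Fin d → Fin n → ℝ} (h : Good c f b w)
    (x : Fin d → V) (v : Fin d → ℝ) (hx : f x ≠ 0)
    (hv : ∀ i m, (b i).repr (x i) m ≠ 0 → w i m ≤ v i) : c ≤ ∑ i, v i := by
  obtain ⟨l, h1, h2⟩ := expand f b x hx
  exact (h l h2).trans (Finset.sum_le_sum fun i _ => hv i _ (h1 i))

def cost (w : Fin d → Fin n → ℝ) : ℝ := ∑ i, ∑ m, w i m ^ 2

lemma cost_nonneg (w : Fin d → Fin n → ℝ) : 0 ≤ cost w :=
  Finset.sum_nonneg fun _ _ => Finset.sum_nonneg fun _ _ => sq_nonneg _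

/-- The set of costs of frames for f. -/
def costs (n : ℕ) (f : MultilinearMap F (fun _ : Fin d => V) F) : Set ℝ :=
  {r | ∃ (b : Fin d → Basis (Fin n) F V) (w : Fin d → Fin n → ℝ), (∀ i m, 0 ≤ w i m) ∧
    Good 1 f b w ∧ r = cost w}

def N (n : ℕ) (f : MultilinearMap F (fun _ : Fin d => V) F) : ℝ := sInf (costs n f)

lemma costs_bdd (f : MultilinearMap F (fun _ : Fin d => V) F) : BddBelow (costs n f) := by
  refine ⟨0, ?_⟩
  rintro _ ⟨b, w, _, _, rfl⟩
  exact cost_nonneg w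

lemma N_le (f : MultilinearMap F (fun _ : Fin d => V) F) (b : Fin d → Basis (Fin n) F V)
    (w : Fin d → Fin n → ℝ) (h0 : ∀ i m, 0 ≤ w i m) (h : Good 1 f b w) : N n f ≤ cost w :=
  csInf_le (costs_bdd f) ⟨b, w, h0, h, rfl⟩

lemma costs_nonempty (hd : 0 < d) (b : Basis (Fin n) F V)
    (f : MultilinearMap F (fun _ : Fin d => V) F) : (costs n f).Nonempty := by
  refine ⟨_, fun _ => b, fun _ _ => 1, fun _ _ => zero_le_one, fun l _ => ?_, rfl⟩
  simp only [Finset.sum_const, Finset.card_univ, Fintype.card_fin, nsmul_eq_mul, mul_one]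
  exact_mod_cast hd

lemma N_nonneg (f : MultilinearMap F (fun _ : Fin d => V) F) : 0 ≤ N n f := by
  apply Real.sInf_nonneg
  rintro _ ⟨b, w, _, _, rfl⟩
  exact cost_nonneg w

lemma exists_near (hd : 0 < d) (e : Basis (Fin n) F V)
    (f : MultilinearMap F (fun _ : Fin d => V) F) {ε : ℝ} (hε : 0 < ε) :
    ∃ (b : Fin d → Basis (Fin n) F V) (w : Fin d → Fin n → ℝ), (∀ i m, 0 ≤ w i m) ∧
      Good 1 f b w ∧ cost w ≤ N n f + ε := by
  obtain ⟨_, ⟨b, w, h0, h1, rfl⟩, h2⟩ :=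
    exists_lt_of_csInf_lt (costs_nonempty hd e f) (lt_add_of_pos_right (N n f) hε)
  exact ⟨b, w, h0, h1, h2.le⟩

/-- Comparison of a near optimal frame with an arbitrary frame. -/
lemma projection (f : MultilinearMap F (fun _ : Fin d => V) F)
    (b b' : Fin d → Basis (Fin n) F V) (w w' : Fin d → Fin n → ℝ)
    (h0 : ∀ i m, 0 ≤ w i m) (h0' : ∀ i m, 0 ≤ w' i m)
    (hg : Good 1 f b w) (hg' : Good 1 f b' w') {ε : ℝ} (hε : cost w ≤ N n f + ε)
    (c : Fin d → Basis (Fin n) F V) (σ π : Fin d → Equiv.Perm (Fin n))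
    (hσ : ∀ i j m, (b i).repr (c i j) m ≠ 0 → w i m ≤ w i (σ i j))
    (hπ : ∀ i j m, (b' i).repr (c i j) m ≠ 0 → w' i m ≤ w' i (π i j)) :
    cost w - 2 * ε + (∑ i, ∑ j, (w' i (π i j) - w i (σ i j)) ^ 2) / 2 ≤ cost w' := by
  set u : Fin d → Fin n → ℝ := fun i j => (w i (σ i j) + w' i (π i j)) / 2 with hu
  have hu0 : ∀ i m, 0 ≤ u i m := fun i m =>
    div_nonneg (add_nonneg (h0 _ _) (h0' _ _)) (by norm_num)
  have hgu : Good 1 f c u := by
    intro l hl
    have h1 := hg.of_ne (fun i => c i (l i)) (fun i => w i (σ i (l i))) hl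
      (fun i m h => hσ i (l i) m h)
    have h2 := hg'.of_ne (fun i => c i (l i)) (fun i => w' i (π i (l i))) hl
      (fun i m h => hπ i (l i) m h)
    have h3 : ∑ i, u i (l i) = ((∑ i, w i (σ i (l i))) + ∑ i, w' i (π i (l i))) / 2 := by
      rw [← Finset.sum_add_distrib, Finset.sum_div]
    rw [h3]
    linarith
  have h4 := N_le f c u hu0 hgu
  have h5 : cost w = ∑ i, ∑ j, w i (σ i j) ^ 2 :=
    Finset.sum_congr rfl fun i _ => (Equiv.sum_comp (σ i) (fun j => w i j ^ 2)).symm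
  have h6 : cost w' = ∑ i, ∑ j, w' i (π i j) ^ 2 :=
    Finset.sum_congr rfl fun i _ => (Equiv.sum_comp (π i) (fun j => w' i j ^ 2)).symm
  have h7 : cost u = cost w / 2 + cost w' / 2
      - (∑ i, ∑ j, (w' i (π i j) - w i (σ i j)) ^ 2) / 4 := by
    rw [h5, h6, cost, Finset.sum_div, Finset.sum_div, Finset.sum_div, ← Finset.sum_add_distrib,
      ← Finset.sum_sub_distrib]
    refine Finset.sum_congr rfl fun i _ => ?_
    rw [Finset.sum_div, Finset.sum_div, Finset.sum_div, ← Finset.sum_add_distrib,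
      ← Finset.sum_sub_distrib]
    refine Finset.sum_congr rfl fun j _ => ?_
    simp only [hu]
    ring
  linarith

end General

end Pool.Agent.Helper41K9.SR
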