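import Mathlib
import Pool.Agent.Helper41K9.SR.Norm

set_option autoImplicit false

noncomputable section

namespace Pool.Agent.Helper41K9.SR

open Module

variable {F : Type*} [Field F] {n d : ℕ}

/-- Coordinate projection onto the coordinates in Z. -/
def proj (F : Type*) [Field F] {n : ℕ} (Z : Finset (Fin n)) : (Fin n → F) →ₗ[F] (Fin n → F) :=
  LinearMap.pi fun k => if k ∈ Z then LinearMap.proj k else 0

lemma proj_apply (Z : Finset (Fin n)) (x : Fin n → F) (k : Fin n) :
    proj F Z x k = if k ∈ Z then x k else 0 := by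
  rw [proj, LinearMap.pi_apply]
  split_ifs <;> simp

lemma proj_of_supp (Z : Finset (Fin n)) (x : Fin n → F) (h : ∀ k, k ∉ Z → x k = 0) :
    proj F Z x = x := by
  funext k
  rw [proj_apply]
  split_ifs with hk
  · rfl
  · exact (h k hk).symm

lemma proj_eq_zero (Z : Finset (Fin n)) (x : Fin n → F) (h : ∀ k ∈ Z, x k = 0) :
    proj F Z x = 0 := by
  funext k
  rw [proj_apply]
  split_ifs with hk
  · exact h k hk
  · rfl

/-- Restrict the form to coordinates in Z, in direction i₀. -/
def cutForm (f : MultilinearMap F (fun _ : Fin d => (Fin n → F)) F) (i₀ : Fin d)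
    (Z : Finset (Fin n)) : MultilinearMap F (fun _ : Fin d => (Fin n → F)) F :=
  f.compLinearMap fun i => if i = i₀ then proj F Z else LinearMap.id

lemma cutForm_apply (f : MultilinearMap F (fun _ : Fin d => (Fin n → F)) F) (i₀ : Fin d)
    (Z : Finset (Fin n)) (x : Fin d → Fin n → F) :
    cutForm f i₀ Z x = f (Function.update x i₀ (proj F Z (x i₀))) := by
  rw [cutForm, MultilinearMap.compLinearMap_apply]
  congr 1
  funext i
  by_cases h : i = i₀
  · subst h
    rw [Function.update_self, if_pos rfl]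
  · rw [Function.update_of_ne h, if_neg h]
    rfl

lemma cutForm_of_supp (f : MultilinearMap F (fun _ : Fin d => (Fin n → F)) F) (i₀ : Fin d)
    (Z : Finset (Fin n)) (x : Fin d → Fin n → F) (h : ∀ k, k ∉ Z → x i₀ k = 0) :
    cutForm f i₀ Z x = f x := by
  rw [cutForm_apply, proj_of_supp Z _ h, Function.update_eq_self]

lemma cutForm_eq_zero (f : MultilinearMap F (fun _ : Fin d => (Fin n → F)) F) (i₀ : Fin d)
    (Z : Finset (Fin n)) (x : Fin d → Fin n → F) (h : ∀ k ∈ Z, x i₀ k = 0) :
    cutForm f i₀ Z x = 0 := by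
  rw [cutForm_apply, proj_eq_zero Z _ h]
  exact f.map_coord_zero i₀ (by rw [Function.update_self])

/-- Mixed basis: a basis adapted to Z, completed by vectors which are unit vectors mod E_Z. -/
lemma mixed_basis (c : Basis (Fin n) F (Fin n → F)) (σ : Equiv.Perm (Fin n))
    (Z : Finset (Fin n)) (y : Fin n → Fin n → F)
    (hc : ∀ j ∈ Z, ∀ m, c.repr (Pi.single j 1) m ≠ 0 → σ m ∈ Z)
    (hy : ∀ k, k ∉ Z → ∀ m, m ∉ Z → y k m = if m = k then 1 else 0) :
    ∃ C : Basis (Fin n) F (Fin n → F), ∀ j, C j = if σ j ∈ Z then c j else y (σ j) := by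
  set v : Fin n → Fin n → F := fun j => if σ j ∈ Z then c j else y (σ j) with hv
  have h1 : ∀ x : Fin n → F, (∀ k, k ∉ Z → x k = 0) → x ∈ Submodule.span F (Set.range v) := by
    intro x hx
    have h2 : ∀ j ∈ Z, (Pi.single j 1 : Fin n → F) ∈ Submodule.span F (Set.range v) := by
      intro j hj
      rw [← c.sum_repr (Pi.single j 1)]
      refine Submodule.sum_mem _ fun m _ => ?_
      by_cases hm : c.repr (Pi.single j 1) m = 0
      · rw [hm, zero_smul]
        exact Submodule.zero_mem _
      · refine Submodule.smul_mem _ _ (Submodule.subset_span ⟨m, ?_⟩)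
        rw [hv]
        exact if_pos (hc j hj m hm)
    have h3 : x = ∑ j, x j • (Pi.single j 1 : Fin n → F) := by
      funext k
      rw [Finset.sum_apply, Finset.sum_eq_single k]
      · simp
      · intro j _ hj
        simp [Pi.single_eq_of_ne hj.symm]
      · intro h
        exact absurd (Finset.mem_univ k) h
    rw [h3]
    refine Submodule.sum_mem _ fun j _ => ?_
    by_cases hj : j ∈ Z
    · exact Submodule.smul_mem _ _ (h2 j hj)
    · rw [hx j hj, zero_smul]
      exact Submodule.zero_mem _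
  have h4 : ∀ k, (Pi.single k 1 : Fin n → F) ∈ Submodule.span F (Set.range v) := by
    intro k
    by_cases hk : k ∈ Z
    · refine h1 _ fun m hm => ?_
      have hmk : m ≠ k := fun h => hm (h ▸ hk)
      exact Pi.single_eq_of_ne hmk 1
    · have h5 : (Pi.single k 1 : Fin n → F) = y k - (y k - Pi.single k 1) := by abel
      rw [h5]
      refine Submodule.sub_mem _ (Submodule.subset_span ⟨σ.symm k, ?_⟩) (h1 _ fun m hm => ?_)
      · simp only [hv, Equiv.apply_symm_apply]
        exact if_neg hk
      · rw [Pi.sub_apply, hy k hk m hm, Pi.single_apply, sub_self]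
  have h6 : ⊤ ≤ Submodule.span F (Set.range v) := by
    rw [← (Pi.basisFun F (Fin n)).span_eq, Submodule.span_le]
    rintro _ ⟨k, rfl⟩
    rw [Pi.basisFun_apply]
    exact h4 k
  refine ⟨basisOfTopLeSpanOfCardEqFinrank v h6 (finrank_eq_card_basis c).symm, fun j => ?_⟩
  rw [coe_basisOfTopLeSpanOfCardEqFinrank]

/-- The set of coordinates k is covered by the frame (b,w) relative to Z. -/
def Covered (f : MultilinearMap F (fun _ : Fin d => (Fin n → F)) F) (i₀ : Fin d)
    (Z : Finset (Fin n)) (b : Fin d → Basis (Fin n) F (Fin n → F)) (w : Fin d → Fin n → ℝ)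
    (k : Fin n) : Prop :=
  ∃ x : Fin n → F, (∀ m, m ∉ Z → x m = if m = k then 1 else 0) ∧
    ∀ l : Fin d → Fin n, f (Function.update (fun i => b i (l i)) i₀ x) ≠ 0 →
      1 / 2 ≤ ∑ i ∈ Finset.univ.erase i₀, w i (l i)

lemma key_le_zero {Z : Finset (Fin n)} {k m : Fin n}
    (h : (if m ∈ Z then (0:ℝ) else if m = k then 1 else 2) ≤ 0) : m ∈ Z := by
  by_contra hm
  rw [if_neg hm] at h
  split_ifs at h <;> linarith

lemma key_le_one {Z : Finset (Fin n)} {k m : Fin n}
    (h : (if m ∈ Z then (0:ℝ) else if m = k then 1 else 2) ≤ 1) (hm : m ∉ Z) : m = k := by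
  by_contra hmk
  rw [if_neg hm, if_neg hmk] at h
  linarith

lemma uncovered_increment (f : MultilinearMap F (fun _ : Fin d => (Fin n → F)) F) (i₀ : Fin d)
    (Z : Finset (Fin n)) (k : Fin n) (hk : k ∉ Z)
    (b : Fin d → Basis (Fin n) F (Fin n → F)) (w : Fin d → Fin n → ℝ)
    (h0 : ∀ i m, 0 ≤ w i m) (hg : Good 1 (cutForm f i₀ Z) b w) {ε : ℝ}
    (hε : cost w ≤ N n (cutForm f i₀ Z) + ε) (hun : ¬ Covered f i₀ Z b w k) :
    N n (cutForm f i₀ Z) + 1 / (8 * d) - 2 * ε ≤ N n (cutForm f i₀ (insert k Z)) := by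
  have hd : 0 < d := i₀.pos
  apply le_csInf (costs_nonempty hd (Pi.basisFun F (Fin n)) _)
  rintro _ ⟨b', w', h0', hg', rfl⟩
  obtain ⟨c, σ, π, hc1, hc2, hc3, hc4⟩ := common_weighted (Pi.basisFun F (Fin n)) (b' i₀)
    (fun m => if m ∈ Z then (0:ℝ) else if m = k then 1 else 2) (w' i₀)
  simp only [Pi.basisFun_repr, Pi.basisFun_apply] at hc1 hc2 hc3
  set j₀ := σ.symm k with hj₀
  have hσj₀ : σ j₀ = k := Equiv.apply_symm_apply σ k
  have hx₀ : ∀ m, m ∉ Z → c j₀ m = if m = k then 1 else 0 := by
    intro m hm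
    split_ifs with hmk
    · rw [hmk, ← hσj₀]
      exact hc1 j₀
    · by_contra hne
      have h1 := hc2 j₀ m hne
      rw [hσj₀, if_neg hk, if_pos rfl] at h1
      exact hmk (key_le_one h1 hm)
  have hcZ : ∀ j, σ j ∈ Z → ∀ m, m ∉ Z → c j m = 0 := by
    intro j hj m hm
    by_contra hne
    have h1 := hc2 j m hne
    rw [if_pos hj] at h1
    exact hm (key_le_zero h1)
  obtain ⟨C, hC⟩ := mixed_basis c σ Z (fun k => Pi.single k 1)
    (by
      intro j hj m hm
      have h1 := hc3 j m hm
      rw [if_pos hj] at h1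
      exact key_le_zero h1)
    (by
      intro k _ m _
      exact Pi.single_apply k (1:F) m)
  set b'' := Function.update b' i₀ C with hb''
  set w'' := Function.update w' i₀ (fun j => if σ j ∈ Z then w' i₀ (π j) else 0) with hw''
  have h0'' : ∀ i m, 0 ≤ w'' i m := by
    intro i m
    by_cases hi : i = i₀
    · subst hi
      rw [hw'', Function.update_self]
      split_ifs
      · exact h0' _ _
      · exact le_refl 0
    · rw [hw'', Function.update_of_ne hi]
      exact h0' i m
  have hg'' : Good 1 (cutForm f i₀ Z) b'' w'' := by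
    intro l hl
    by_cases hσl : σ (l i₀) ∈ Z
    · have hxi : b'' i₀ (l i₀) = c (l i₀) := by
        rw [hb'', Function.update_self, hC, if_pos hσl]
      have h1 : cutForm f i₀ Z (fun i => b'' i (l i))
          = cutForm f i₀ (insert k Z) (fun i => b'' i (l i)) := by
        rw [cutForm_of_supp, cutForm_of_supp]
        · intro m hm
          rw [hxi]
          exact hcZ _ hσl m (fun h => hm (Finset.mem_insert_of_mem h))
        · intro m hm
          rw [hxi]
          exact hcZ _ hσl m hm
      rw [h1] at hl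
      refine hg'.of_ne _ (fun i => w'' i (l i)) hl fun i m hm => ?_
      by_cases hi : i = i₀
      · subst hi
        rw [hxi] at hm
        rw [hw'', Function.update_self]
        rw [if_pos hσl]
        exact hc4 _ _ hm
      · rw [hb'', Function.update_of_ne hi, Basis.repr_self] at hm
        have hml : m = l i := by
          by_contra hne
          exact hm (Finsupp.single_eq_of_ne hne)
        rw [hml, hw'', Function.update_of_ne hi]
    · exfalso
      apply hl
      apply cutForm_eq_zero
      intro m hm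
      rw [hb'', Function.update_self, hC, if_neg hσl]
      have hne : m ≠ σ (l i₀) := fun h => hσl (h ▸ hm)
      exact Pi.single_eq_of_ne hne 1
  set ω := w' i₀ (π j₀) with hω
  have hcost : cost w'' + ω ^ 2 ≤ cost w' := by
    rw [cost, cost, ← Finset.add_sum_erase _ _ (Finset.mem_univ i₀),
      ← Finset.add_sum_erase _ (fun i => ∑ m, w' i m ^ 2) (Finset.mem_univ i₀)]
    have h1 : ∑ i ∈ Finset.univ.erase i₀, ∑ m, w'' i m ^ 2
        = ∑ i ∈ Finset.univ.erase i₀, ∑ m, w' i m ^ 2 := by
      refine Finset.sum_congr rfl fun i hi => ?_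
      rw [hw'', Function.update_of_ne (Finset.ne_of_mem_erase hi)]
    have h2 : ∑ m, w'' i₀ m ^ 2 + ω ^ 2 ≤ ∑ m, w' i₀ m ^ 2 := by
      rw [← Equiv.sum_comp π (fun m => w' i₀ m ^ 2), ← Finset.add_sum_erase _ _ (Finset.mem_univ j₀),
        ← Finset.add_sum_erase _ (fun i => w' i₀ (π i) ^ 2) (Finset.mem_univ j₀)]
      have h3 : w'' i₀ j₀ = 0 := by
        rw [hw'', Function.update_self]
        rw [hσj₀, if_neg hk]
      have h4 : ∑ m ∈ Finset.univ.erase j₀, w'' i₀ m ^ 2
          ≤ ∑ m ∈ Finset.univ.erase j₀, w' i₀ (π m) ^ 2 := by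
        refine Finset.sum_le_sum fun m _ => ?_
        rw [hw'', Function.update_self]
        split_ifs
        · exact le_refl _
        · rw [zero_pow two_ne_zero]
          exact sq_nonneg _
      rw [h3, ← hω]
      linarith
    linarith
  choose C' σ' π' hC1 hC2 hC3 hC4 using fun i => common_weighted (b i) (b'' i) (w i) (w'' i)
  have hproj := projection (cutForm f i₀ Z) b b'' w w'' h0 h0'' hg hg'' hε C' σ' π' hC2 hC4
  have hun2 : ∃ l : Fin d → Fin n, f (Function.update (fun i => b i (l i)) i₀ (c j₀)) ≠ 0 ∧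
      ∑ i ∈ Finset.univ.erase i₀, w i (l i) < 1 / 2 := by
    by_contra hcon
    push Not at hcon
    exact hun ⟨c j₀, hx₀, hcon⟩
  obtain ⟨l, hl1, hl2⟩ := hun2
  obtain ⟨m, hm1, hm2⟩ := expand f (Function.update C' i₀ c) _ hl1
  have hmi₀ : m i₀ = j₀ := by
    have h1 := hm1 i₀
    rw [Function.update_self, Function.update_self, Basis.repr_self] at h1
    by_contra hne
    exact h1 (Finsupp.single_eq_of_ne hne)
  have hm3 : ∀ i, i ≠ i₀ → w i (σ' i (m i)) ≤ w i (l i) := by
    intro i hi
    have h1 := hm1 i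
    rw [Function.update_of_ne hi, Function.update_of_ne hi] at h1
    exact hC3 i _ _ h1
  have hm4 : cutForm f i₀ (insert k Z) (fun i => Function.update C' i₀ c i (m i)) ≠ 0 := by
    rw [cutForm_of_supp]
    · exact hm2
    · intro q hq
      have hqk : q ≠ k := fun h => hq (h ▸ Finset.mem_insert_self _ _)
      rw [Function.update_self, hmi₀, hx₀ q (fun h => hq (Finset.mem_insert_of_mem h)),
        if_neg hqk]
  have hm5 := hg'.of_ne _ (Function.update (fun i => w'' i (π' i (m i))) i₀ ω) hm4 (by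
    intro i q hq
    by_cases hi : i = i₀
    · subst hi
      rw [Function.update_self, hmi₀] at hq
      rw [Function.update_self]
      exact hc4 _ _ hq
    · rw [Function.update_of_ne hi] at hq
      rw [Function.update_of_ne hi]
      have h1 := hC4 i (m i) q
      rw [hb'', hw'', Function.update_of_ne hi, Function.update_of_ne hi] at h1
      rw [hw'', Function.update_of_ne hi]
      exact h1 hq)
  set a : Fin d → ℝ := Function.update (fun i => w'' i (π' i (m i)) - w i (σ' i (m i))) i₀ ω with ha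
  have hsum : 1 / 2 < ∑ i, a i := by
    rw [← Finset.add_sum_erase _ _ (Finset.mem_univ i₀)] at hm5 ⊢
    rw [Function.update_self] at hm5
    rw [ha, Function.update_self]
    have h1 : ∑ i ∈ Finset.univ.erase i₀, Function.update (fun i => w'' i (π' i (m i))) i₀ ω i
        = ∑ i ∈ Finset.univ.erase i₀, w'' i (π' i (m i)) :=
      Finset.sum_congr rfl fun i hi => by
        rw [Function.update_of_ne (Finset.ne_of_mem_erase hi)]
    have h2 : ∑ i ∈ Finset.univ.erase i₀,
          Function.update (fun i => w'' i (π' i (m i)) - w i (σ' i (m i))) i₀ ω i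
        = ∑ i ∈ Finset.univ.erase i₀, w'' i (π' i (m i))
          - ∑ i ∈ Finset.univ.erase i₀, w i (σ' i (m i)) := by
      rw [← Finset.sum_sub_distrib]
      exact Finset.sum_congr rfl fun i hi => by
        rw [Function.update_of_ne (Finset.ne_of_mem_erase hi)]
    have h3 : ∑ i ∈ Finset.univ.erase i₀, w i (σ' i (m i))
        ≤ ∑ i ∈ Finset.univ.erase i₀, w i (l i) :=
      Finset.sum_le_sum fun i hi => hm3 i (Finset.ne_of_mem_erase hi)
    rw [h1] at hm5
    rw [h2]
    linarith
  have hcs := sq_sum_le_card_mul_sum_sq (s := (Finset.univ : Finset (Fin d))) (f := a)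
  rw [Finset.card_univ, Fintype.card_fin] at hcs
  have ha2 : ∑ i, a i ^ 2 ≤ ω ^ 2 + ∑ i, ∑ j, (w'' i (π' i j) - w i (σ' i j)) ^ 2 := by
    rw [← Finset.add_sum_erase _ _ (Finset.mem_univ i₀)]
    have h1 : a i₀ = ω := by rw [ha, Function.update_self]
    rw [h1]
    refine add_le_add (le_refl _) ?_
    have h2 : ∀ i ∈ Finset.univ.erase i₀, a i ^ 2 ≤ ∑ j, (w'' i (π' i j) - w i (σ' i j)) ^ 2 := by
      intro i hi
      rw [ha, Function.update_of_ne (Finset.ne_of_mem_erase hi)]
      exact Finset.single_le_sum (f := fun j => (w'' i (π' i j) - w i (σ' i j)) ^ 2)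
        (fun j _ => sq_nonneg _) (Finset.mem_univ (m i))
    refine (Finset.sum_le_sum h2).trans ?_
    exact Finset.sum_le_sum_of_subset_of_nonneg (Finset.erase_subset _ _)
      fun i _ _ => Finset.sum_nonneg fun j _ => sq_nonneg _
  have hdpos : (0:ℝ) < d := by exact_mod_cast hd
  have hquart : 1 / (4 * (d:ℝ)) ≤ ∑ i, a i ^ 2 := by
    rw [div_le_iff₀ (by positivity)]
    nlinarith
  have h8 : 1 / (8 * (d:ℝ)) = (1 / (4 * (d:ℝ))) / 2 := by
    field_simp
    norm_num
  have hN := N_le _ b w h0 hg
  have hω2 : 0 ≤ ω ^ 2 := sq_nonneg _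
  rw [h8]
  linarith

end Pool.Agent.Helper41K9.SR
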