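import Mathlib
import Pool.Agent.Helper41K9.SR.Step

set_option autoImplicit false

noncomputable section

namespace Pool.Agent.Helper41K9.SR

open Module

variable {F : Type*} [Field F] {n d : ℕ}

/-- A slice: a function of one coordinate times a function of the other coordinates. -/
def IsSliceFn {α : Type*} (S : (Fin d → α) → F) : Prop :=
  ∃ (i : Fin d) (f : α → F) (g : (Fin d → α) → F),
    (∀ x y, (∀ j, j ≠ i → x j = y j) → g x = g y) ∧ ∀ x, S x = f (x i) * g x

/-- Sum of r slices. -/
def HasSR {α : Type*} (r : ℕ) (t : (Fin d → α) → F) : Prop :=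
  ∃ S : Fin r → (Fin d → α) → F, (∀ j, IsSliceFn (S j)) ∧ ∀ x, t x = ∑ j, S j x

lemma hasSR_of_finset {α ι : Type*} (H : Finset ι) (S : ι → (Fin d → α) → F)
    (hS : ∀ p ∈ H, IsSliceFn (S p)) (t : (Fin d → α) → F) (ht : ∀ x, t x = ∑ p ∈ H, S p x) :
    HasSR H.card t := by
  refine ⟨fun j => S (H.equivFin.symm j : H), fun j => hS _ (H.equivFin.symm j).2, fun x => ?_⟩
  rw [ht x, Equiv.sum_comp H.equivFin.symm (fun p : H => S p x), Finset.sum_coe_sort H
    (fun p => S p x)]

lemma hasSR_of_good (hd : 0 < d) (f : MultilinearMap F (fun _ : Fin d => (Fin n → F)) F)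
    (b : Fin d → Basis (Fin n) F (Fin n → F)) (w : Fin d → Fin n → ℝ) {c : ℝ} (hc : 0 < c)
    (hg : Good c f b w) :
    ∃ r : ℕ, (r : ℝ) * (c / d) ^ 2 ≤ cost w ∧
      HasSR r (fun y : Fin d → Fin n => f (fun i => Pi.single (y i) 1)) := by
  classical
  have hdpos : (0:ℝ) < d := by exact_mod_cast hd
  have : Nonempty (Fin d) := ⟨⟨0, hd⟩⟩
  set H : Finset (Fin d × Fin n) := Finset.univ.filter fun p => c / d ≤ w p.1 p.2 with hH
  have hex : ∀ l : Fin d → Fin n, ∃ i, f (fun i => b i (l i)) ≠ 0 → c / d ≤ w i (l i) := by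
    intro l
    by_contra hcon
    push Not at hcon
    obtain ⟨i₁, h1⟩ : ∃ i₁ : Fin d, True := ⟨⟨0, hd⟩, trivial⟩
    have h2 := hg l (hcon i₁).1
    have h3 : ∑ i, w i (l i) < ∑ _i : Fin d, c / d :=
      Finset.sum_lt_sum_of_nonempty Finset.univ_nonempty fun i _ => (hcon i).2
    rw [Finset.sum_const, Finset.card_univ, Fintype.card_fin, nsmul_eq_mul,
      mul_div_cancel₀ _ hdpos.ne'] at h3
    linarith
  choose φ hφ using hex
  set L : Finset (Fin d → Fin n) := Finset.univ.filter fun l => f (fun i => b i (l i)) ≠ 0 with hL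
  refine ⟨H.card, ?_, ?_⟩
  · have h1 : (H.card : ℝ) * (c / d) ^ 2 = ∑ p ∈ H, (c / d) ^ 2 := by
      rw [Finset.sum_const, nsmul_eq_mul]
    rw [h1]
    calc ∑ p ∈ H, (c / d) ^ 2 ≤ ∑ p ∈ H, w p.1 p.2 ^ 2 := by
          refine Finset.sum_le_sum fun p hp => ?_
          exact pow_le_pow_left₀ (by positivity) (Finset.mem_filter.1 hp).2 2
      _ ≤ ∑ p : Fin d × Fin n, w p.1 p.2 ^ 2 :=
          Finset.sum_le_sum_of_subset_of_nonneg (Finset.subset_univ _)
            fun p _ _ => sq_nonneg _
      _ = cost w := by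
          rw [Fintype.sum_prod_type, cost]
  · refine hasSR_of_finset H (fun p y => (b p.1).repr (Pi.single (y p.1) 1) p.2 *
      ∑ l ∈ L.filter (fun l => (φ l, l (φ l)) = p),
        (∏ i ∈ Finset.univ.erase p.1, (b i).repr (Pi.single (y i) 1) (l i)) *
          f (fun i => b i (l i))) ?_ _ ?_
    · intro p _
      refine ⟨p.1, fun a => (b p.1).repr (Pi.single a 1) p.2, _, ?_, fun y => rfl⟩
      intro x y hxy
      refine Finset.sum_congr rfl fun l _ => ?_
      congr 1
      refine Finset.prod_congr rfl fun i hi => ?_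
      rw [hxy i (Finset.ne_of_mem_erase hi)]
    · intro y
      rw [expand_eq f b]
      have h1 : ∑ l : Fin d → Fin n, (∏ i, (b i).repr (Pi.single (y i) 1) (l i)) *
          f (fun i => b i (l i)) = ∑ l ∈ L, (∏ i, (b i).repr (Pi.single (y i) 1) (l i)) *
          f (fun i => b i (l i)) := by
        rw [hL, Finset.sum_filter]
        refine Finset.sum_congr rfl fun l _ => ?_
        split_ifs with h
        · rfl
        · rw [not_not.1 h, mul_zero]
      rw [h1]
      have hmaps : ∀ l ∈ L, (φ l, l (φ l)) ∈ H := by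
        intro l hl
        rw [hH, Finset.mem_filter]
        exact ⟨Finset.mem_univ _, hφ l (Finset.mem_filter.1 hl).2⟩
      rw [← Finset.sum_fiberwise_of_maps_to hmaps]
      refine Finset.sum_congr rfl fun p _ => ?_
      rw [Finset.mul_sum]
      refine Finset.sum_congr rfl fun l hl => ?_
      have hlp := (Finset.mem_filter.1 hl).2
      have hp2 : p.2 = l p.1 := by
        rw [← hlp]
      rw [← Finset.mul_prod_erase _ _ (Finset.mem_univ p.1), hp2, mul_assoc]

lemma all_covered (f : MultilinearMap F (fun _ : Fin d => (Fin n → F)) F) (i₀ : Fin d)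
    (Z : Finset (Fin n)) (b : Fin d → Basis (Fin n) F (Fin n → F)) (w : Fin d → Fin n → ℝ)
    (hg : Good 1 (cutForm f i₀ Z) b w)
    (hcov : ∀ k, k ∉ Z → Covered f i₀ Z b w k) :
    ∃ (b' : Fin d → Basis (Fin n) F (Fin n → F)) (w' : Fin d → Fin n → ℝ),
      Good (1 / 2) f b' w' ∧ cost w' ≤ cost w := by
  classical
  have hcov2 : ∀ k, ∃ x : Fin n → F, k ∉ Z → (∀ m, m ∉ Z → x m = if m = k then 1 else 0) ∧
    ∀ l : Fin d → Fin n, f (Function.update (fun i => b i (l i)) i₀ x) ≠ 0 →
      1 / 2 ≤ ∑ i ∈ Finset.univ.erase i₀, w i (l i) := by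
    intro k
    by_cases hk : k ∈ Z
    · exact ⟨0, fun h => absurd hk h⟩
    · obtain ⟨x, hx⟩ := hcov k hk
      exact ⟨x, fun _ => hx⟩
  choose y hy using hcov2
  obtain ⟨c, σ, π, hc1, hc2, hc3, hc4⟩ := common_weighted (Pi.basisFun F (Fin n)) (b i₀)
    (fun m => if m ∈ Z then (0:ℝ) else 1) (w i₀)
  simp only [Pi.basisFun_repr, Pi.basisFun_apply] at hc1 hc2 hc3
  have hkey : ∀ m, (if m ∈ Z then (0:ℝ) else 1) ≤ 0 → m ∈ Z := by
    intro m h
    by_contra hm
    rw [if_neg hm] at h
    linarith
  have hcZ : ∀ j, σ j ∈ Z → ∀ m, m ∉ Z → c j m = 0 := by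
    intro j hj m hm
    by_contra hne
    have h1 := hc2 j m hne
    rw [if_pos hj] at h1
    exact hm (hkey m h1)
  obtain ⟨C, hC⟩ := mixed_basis c σ Z y
    (by
      intro j hj m hm
      have h1 := hc3 j m hm
      rw [if_pos hj] at h1
      exact hkey _ h1)
    (fun k hk => (hy k hk).1)
  refine ⟨Function.update b i₀ C,
    Function.update w i₀ (fun j => if σ j ∈ Z then w i₀ (π j) else 0), ?_, ?_⟩
  · intro l hl
    have hrest : ∑ i ∈ Finset.univ.erase i₀,
        Function.update w i₀ (fun j => if σ j ∈ Z then w i₀ (π j) else 0) i (l i)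
        = ∑ i ∈ Finset.univ.erase i₀, w i (l i) :=
      Finset.sum_congr rfl fun i hi => by
        rw [Function.update_of_ne (Finset.ne_of_mem_erase hi)]
    rw [← Finset.add_sum_erase _ _ (Finset.mem_univ i₀), hrest, Function.update_self]
    have hup : (fun i => Function.update b i₀ C i (l i))
        = Function.update (fun i => b i (l i)) i₀ (C (l i₀)) := by
      funext i
      by_cases hi : i = i₀
      · subst hi
        rw [Function.update_self, Function.update_self]
      · rw [Function.update_of_ne hi, Function.update_of_ne hi]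
    rw [hup] at hl
    by_cases hσl : σ (l i₀) ∈ Z
    · rw [if_pos hσl]
      have h1 : cutForm f i₀ Z (Function.update (fun i => b i (l i)) i₀ (C (l i₀))) ≠ 0 := by
        rw [cutForm_of_supp]
        · exact hl
        · intro m hm
          rw [Function.update_self, hC, if_pos hσl]
          exact hcZ _ hσl m hm
      have h2 := hg.of_ne _ (Function.update (fun i => w i (l i)) i₀ (w i₀ (π (l i₀)))) h1 (by
        intro i m hm
        by_cases hi : i = i₀
        · subst hi
          rw [Function.update_self, hC, if_pos hσl] at hm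
          rw [Function.update_self]
          exact hc4 _ _ hm
        · rw [Function.update_of_ne hi, Basis.repr_self] at hm
          have hml : m = l i := by
            by_contra hne
            exact hm (Finsupp.single_eq_of_ne hne)
          rw [hml, Function.update_of_ne hi])
      rw [← Finset.add_sum_erase _ _ (Finset.mem_univ i₀), Function.update_self] at h2
      have h3 : ∑ i ∈ Finset.univ.erase i₀,
          Function.update (fun i => w i (l i)) i₀ (w i₀ (π (l i₀))) i
          = ∑ i ∈ Finset.univ.erase i₀, w i (l i) :=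
        Finset.sum_congr rfl fun i hi => by
          rw [Function.update_of_ne (Finset.ne_of_mem_erase hi)]
      rw [h3] at h2
      linarith
    · rw [if_neg hσl, zero_add]
      rw [hC, if_neg hσl] at hl
      exact (hy _ hσl).2 l hl
  · rw [cost, cost, ← Finset.add_sum_erase _ _ (Finset.mem_univ i₀),
      ← Finset.add_sum_erase _ (fun i => ∑ m, w i m ^ 2) (Finset.mem_univ i₀)]
    refine add_le_add ?_ (le_of_eq (Finset.sum_congr rfl fun i hi => by
        rw [Function.update_of_ne (Finset.ne_of_mem_erase hi)]))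
    rw [← Equiv.sum_comp π (fun m => w i₀ m ^ 2), Function.update_self]
    refine Finset.sum_le_sum fun m _ => ?_
    split_ifs
    · exact le_refl _
    · rw [zero_pow two_ne_zero]
      exact sq_nonneg _

end Pool.Agent.Helper41K9.SR
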