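import Mathlib

set_option autoImplicit false

noncomputable section

namespace Pool.Agent.Helper41K9.SR

/-- A d-tensor over F: a finitely supported function on d-tuples of natural numbers. -/
abbrev Tensor (F : Type*) [Field F] (d : ℕ) : Type _ := (Fin d → ℕ) →₀ F

/-- A tensor of the form f(x_i) * g(x_j : j ≠ i). -/
def IsSlice {F : Type*} [Field F] {d : ℕ} (S : Tensor F d) : Prop :=
  ∃ (i : Fin d) (f : ℕ → F) (g : (Fin d → ℕ) → F),
    (∀ x y : Fin d → ℕ, (∀ j, j ≠ i → x j = y j) → g x = g y) ∧ ∀ x, S x = f (x i) * g x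

/-- A tensor of the form f(x_j : j ∈ I) * g(x_j : j ∉ I), with I a nonempty proper subset. -/
def IsSplit {F : Type*} [Field F] {d : ℕ} (S : Tensor F d) : Prop :=
  ∃ (I : Finset (Fin d)) (f g : (Fin d → ℕ) → F), I.Nonempty ∧ I ≠ Finset.univ ∧
    (∀ x y : Fin d → ℕ, (∀ j, j ∈ I → x j = y j) → f x = f y) ∧
    (∀ x y : Fin d → ℕ, (∀ j, j ∉ I → x j = y j) → g x = g y) ∧ ∀ x, S x = f x * g x

/-- Slice rank: the least number of slices summing to T. -/
def sliceRank {F : Type*} [Field F] {d : ℕ} (T : Tensor F d) : ℕ :=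
  sInf {r | ∃ S : Fin r → Tensor F d, (∀ j, IsSlice (S j)) ∧ T = ∑ j, S j}

/-- Partition rank: the least number of split tensors summing to T. -/
def partitionRank {F : Type*} [Field F] {d : ℕ} (T : Tensor F d) : ℕ :=
  sInf {r | ∃ S : Fin r → Tensor F d, (∀ j, IsSplit (S j)) ∧ T = ∑ j, S j}

/-- Keep only the entries with i-th index in J i for all i. -/
def restrict {F : Type*} [Field F] {d : ℕ} (J : Fin d → Finset ℕ) (T : Tensor F d) :
    Tensor F d :=
  T.filter fun x => ∀ i, x i ∈ J i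

/-- The (A,B)-core property of a rank function on d-tensors over F. -/
def CoreProperty {F : Type*} [Field F] {d : ℕ} (rk : Tensor F d → ℝ) (A B : ℝ → ℝ) : Prop :=
  ∃ r₀ : ℝ, ∀ T : Tensor F d, r₀ ≤ rk T → ∃ J : Fin d → Finset ℕ,
    (∀ i, ((J i).card : ℝ) ≤ A (rk T)) ∧ B (rk T) ≤ rk (restrict J T)

/-- The linear core property. -/
def LinearCoreProperty {F : Type*} [Field F] {d : ℕ} (rk : Tensor F d → ℝ) : Prop :=
  ∃ L β : ℝ, 0 < L ∧ 0 < β ∧ CoreProperty rk (fun r => L * r) (fun r => β * r)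

end Pool.Agent.Helper41K9.SR
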