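import Mathlib
import Pool.Agent.Helper41K9.SR.Cover

set_option autoImplicit false

noncomputable section

namespace Pool.Agent.Helper41K9.SR

open Module

variable {F : Type*} [Field F] {n d : ℕ}

/-- The multilinear form of a tensor. -/
def toForm (t : (Fin d → Fin n) → F) : MultilinearMap F (fun _ : Fin d => (Fin n → F)) F :=
  ∑ y : Fin d → Fin n, t y • (MultilinearMap.mkPiAlgebra F (Fin d) F).compLinearMap
    fun i => LinearMap.proj (y i)

lemma toForm_apply (t : (Fin d → Fin n) → F) (x : Fin d → Fin n → F) :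
    toForm t x = ∑ y : Fin d → Fin n, t y * ∏ i, x i (y i) := by
  rw [toForm, sum_apply]
  refine Finset.sum_congr rfl fun y _ => ?_
  rw [smul_apply, MultilinearMap.compLinearMap_apply,
    MultilinearMap.mkPiAlgebra_apply, smul_eq_mul]
  rfl

lemma toForm_single (t : (Fin d → Fin n) → F) (y : Fin d → Fin n) :
    toForm t (fun i => Pi.single (y i) 1) = t y := by
  rw [toForm_apply, Finset.sum_eq_single y]
  · rw [Finset.prod_eq_one, mul_one]
    intro i _
    exact Pi.single_eq_same _ _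
  · intro z _ hz
    obtain ⟨i, hi⟩ := Function.ne_iff.1 hz
    rw [Finset.prod_eq_zero (Finset.mem_univ i), mul_zero]
    exact Pi.single_eq_of_ne hi 1
  · intro h
    exact absurd (Finset.mem_univ y) h

lemma cutForm_toForm (t : (Fin d → Fin n) → F) (i₀ : Fin d) (Z : Finset (Fin n)) :
    cutForm (toForm t) i₀ Z = toForm (fun y => if y i₀ ∈ Z then t y else 0) := by
  refine MultilinearMap.ext fun x => ?_
  rw [cutForm_apply, toForm_apply, toForm_apply]
  refine Finset.sum_congr rfl fun y _ => ?_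
  rw [← Finset.mul_prod_erase _ _ (Finset.mem_univ i₀), ← Finset.mul_prod_erase _ (fun i => x i (y i))
    (Finset.mem_univ i₀), Function.update_self, proj_apply]
  have h1 : ∏ i ∈ Finset.univ.erase i₀, Function.update x i₀ (proj F Z (x i₀)) i (y i)
      = ∏ i ∈ Finset.univ.erase i₀, x i (y i) :=
    Finset.prod_congr rfl fun i hi => by
      rw [Function.update_of_ne (Finset.ne_of_mem_erase hi)]
  rw [h1]
  split_ifs <;> ring

lemma toForm_slice_eq_zero (i : Fin d) (f : Fin n → F) (g : (Fin d → Fin n) → F)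
    (hg : ∀ x y, (∀ j, j ≠ i → x j = y j) → g x = g y) (x : Fin d → Fin n → F)
    (hx : ∑ m, f m * x i m = 0) :
    ∑ y : Fin d → Fin n, (f (y i) * g y) * ∏ j, x j (y j) = 0 := by
  rw [← Equiv.sum_comp (Equiv.funSplitAt i (Fin n)).symm
    (fun y => (f (y i) * g y) * ∏ j, x j (y j)), Fintype.sum_prod_type, Finset.sum_comm]
  refine Finset.sum_eq_zero fun rest _ => ?_
  rcases isEmpty_or_nonempty (Fin n) with hn | ⟨⟨a₀⟩⟩
  · exact Finset.sum_eq_zero fun a _ => (hn.false a).elim
  set y : Fin n → Fin d → Fin n := fun a => (Equiv.funSplitAt i (Fin n)).symm (a, rest) with hy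
  have hyi : ∀ a, y a i = a := by
    intro a
    simp [hy, Equiv.funSplitAt, Equiv.piSplitAt]
  have hyj : ∀ a j, j ≠ i → y a j = y a₀ j := by
    intro a j hj
    simp [hy, Equiv.funSplitAt, Equiv.piSplitAt, hj]
  have h1 : ∀ a ∈ (Finset.univ : Finset (Fin n)), (f (y a i) * g (y a)) * ∏ j, x j (y a j)
      = (f a * x i a) * (g (y a₀) * ∏ j ∈ Finset.univ.erase i, x j (y a₀ j)) := by
    intro a _
    rw [← Finset.mul_prod_erase _ _ (Finset.mem_univ i), hyi, hg (y a) (y a₀) (hyj a)]
    have h2 : ∏ j ∈ Finset.univ.erase i, x j (y a j) = ∏ j ∈ Finset.univ.erase i, x j (y a₀ j) :=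
      Finset.prod_congr rfl fun j hj => by rw [hyj a j (Finset.ne_of_mem_erase hj)]
    rw [h2]
    ring
  rw [Finset.sum_congr rfl h1, ← Finset.sum_mul, hx, zero_mul]

lemma adapted {V : Type*} [AddCommGroup V] [Module F V] [FiniteDimensional F V]
    (hV : finrank F V = n) (U : Submodule F V) (k : ℕ) (hU : n ≤ finrank F U + k) :
    ∃ (C : Basis (Fin n) F V) (v : Fin n → ℝ), (∀ m, 0 ≤ v m) ∧ (∀ m, v m < 1 → C m ∈ U) ∧
      ∑ m, v m ^ 2 ≤ k := by
  obtain ⟨W, hW⟩ := U.exists_isCompl
  have hadd := Submodule.finrank_add_eq_of_isCompl hW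
  set B := ((finBasis F U).prod (finBasis F W)).map (U.prodEquivOfIsCompl W hW) with hB
  have hcard : Fintype.card (Fin (finrank F U) ⊕ Fin (finrank F W)) = Fintype.card (Fin n) := by
    rw [Fintype.card_sum, Fintype.card_fin, Fintype.card_fin, Fintype.card_fin, hadd, hV]
  set e := Fintype.equivOfCardEq hcard with he
  refine ⟨B.reindex e, fun m => Sum.elim (fun _ => (0:ℝ)) (fun _ => 1) (e.symm m), ?_, ?_, ?_⟩
  · intro m
    have h2 : ∀ s : Fin (finrank F U) ⊕ Fin (finrank F W),
        0 ≤ Sum.elim (fun _ => (0:ℝ)) (fun _ => 1) s := by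
      rintro (a | a)
      · exact le_refl (0:ℝ)
      · exact zero_le_one
    exact h2 _
  · intro m hm
    rw [Basis.reindex_apply]
    have h2 : ∀ s : Fin (finrank F U) ⊕ Fin (finrank F W),
        Sum.elim (fun _ => (0:ℝ)) (fun _ => 1) s < 1 → B s ∈ U := by
      rintro (a | a) h
      · rw [hB, Basis.map_apply]
        simp
      · exact absurd h (lt_irrefl (1:ℝ))
    exact h2 _ hm
  · rw [Equiv.sum_comp e.symm (fun s : Fin (finrank F U) ⊕ Fin (finrank F W) =>
      Sum.elim (fun _ => (0:ℝ)) (fun _ => 1) s ^ 2), Fintype.sum_sum_type]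
    simp only [Sum.elim_inl, Sum.elim_inr, ne_eq, OfNat.ofNat_ne_zero, not_false_eq_true,
      zero_pow, Finset.sum_const_zero, one_pow, Finset.sum_const, Finset.card_univ,
      Fintype.card_fin, nsmul_eq_mul, mul_one, zero_add]
    exact_mod_cast (by omega : finrank F W ≤ k)

lemma N_le_of_hasSR (t : (Fin d → Fin n) → F) (r : ℕ) (h : HasSR r t) :
    N n (toForm t) ≤ r := by
  classical
  obtain ⟨S, hS, ht⟩ := h
  choose idx f g hg hSf using hS
  have hker : ∀ i : Fin d, ∃ (C : Basis (Fin n) F (Fin n → F)) (v : Fin n → ℝ),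
      (∀ m, 0 ≤ v m) ∧ (∀ m, v m < 1 → ∀ j, idx j = i → ∑ a, f j a * C m a = 0) ∧
      ∑ m, v m ^ 2 ≤ ((Finset.univ.filter fun j => idx j = i).card : ℕ) := by
    intro i
    set Φ : (Fin n → F) →ₗ[F] ({j // idx j = i} → F) :=
      LinearMap.pi fun j => ∑ a, f j.1 a • LinearMap.proj a with hΦ
    have h1 := Φ.finrank_range_add_finrank_ker
    have h2 : finrank F (LinearMap.range Φ) ≤ (Finset.univ.filter fun j => idx j = i).card := by
      refine (Submodule.finrank_le _).trans ?_
      rw [Module.finrank_fintype_fun_eq_card, Fintype.card_subtype]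
    have h3 : finrank F (Fin n → F) = n := by
      rw [Module.finrank_fintype_fun_eq_card, Fintype.card_fin]
    rw [h3] at h1
    obtain ⟨C, v, hv0, hvU, hvs⟩ := adapted h3 (LinearMap.ker Φ)
      (Finset.univ.filter fun j => idx j = i).card (by omega)
    refine ⟨C, v, hv0, fun m hm j hj => ?_, hvs⟩
    have h4 := LinearMap.mem_ker.1 (hvU m hm)
    have h5 := congrFun h4 ⟨j, hj⟩
    rw [hΦ, LinearMap.pi_apply, LinearMap.sum_apply] at h5
    simpa using h5
  choose C v hv0 hvU hvs using hker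
  have hgood : Good 1 (toForm t) C v := by
    intro l hl
    by_contra hcon
    apply hl
    have h1 : ∀ i, v i (l i) < 1 := by
      intro i
      refine lt_of_le_of_lt ?_ (not_le.1 hcon)
      exact Finset.single_le_sum (f := fun i => v i (l i)) (fun i _ => hv0 i (l i))
        (Finset.mem_univ i)
    rw [toForm_apply]
    have h2 : ∀ y ∈ (Finset.univ : Finset (Fin d → Fin n)), t y * ∏ i, C i (l i) (y i)
        = ∑ j, (f j (y (idx j)) * g j y) * ∏ i, C i (l i) (y i) := by
      intro y _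
      rw [ht y, Finset.sum_mul]
      exact Finset.sum_congr rfl fun j _ => by rw [hSf]
    rw [Finset.sum_congr rfl h2, Finset.sum_comm]
    refine Finset.sum_eq_zero fun j _ => ?_
    exact toForm_slice_eq_zero (idx j) (f j) (g j) (hg j) (fun i => C i (l i))
      (hvU (idx j) (l (idx j)) (h1 _) j rfl)
  refine (N_le _ C v hv0 hgood).trans ?_
  refine (Finset.sum_le_sum fun i _ => hvs i).trans ?_
  have h6 : ∑ i : Fin d, (Finset.univ.filter fun j : Fin r => idx j = i).card = r := by
    have := Finset.card_eq_sum_card_fiberwise (f := idx) (s := (Finset.univ : Finset (Fin r)))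
      (t := (Finset.univ : Finset (Fin d))) (fun _ _ => Finset.mem_coe.2 (Finset.mem_univ _))
    rw [Finset.card_univ, Fintype.card_fin] at this
    exact this.symm
  exact_mod_cast h6.le

lemma greedy (t : (Fin d → Fin n) → F) (i₀ : Fin d) (s : ℕ) (hs : ∀ r, HasSR r t → s ≤ r)
    (m : ℕ) : ∃ Z : Finset (Fin n), Z.card ≤ m ∧
      ((m : ℝ) / (16 * d) ≤ N n (cutForm (toForm t) i₀ Z) ∨
        (s : ℝ) ≤ 4 * (d:ℝ) ^ 2 * (N n (cutForm (toForm t) i₀ Z) + 1 / (32 * (d:ℝ) ^ 2))) := by
  have hd : 0 < d := i₀.pos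
  have hd1 : (1:ℝ) ≤ d := by exact_mod_cast hd
  have hdpos : (0:ℝ) < d := by linarith
  induction m with
  | zero =>
    refine ⟨∅, le_refl _, Or.inl ?_⟩
    rw [Nat.cast_zero, zero_div]
    exact N_nonneg _
  | succ m ih =>
    obtain ⟨Z, hZ, h | h⟩ := ih
    · obtain ⟨b, w, h0, hg, hc⟩ := exists_near hd (Pi.basisFun F (Fin n))
        (cutForm (toForm t) i₀ Z) (ε := 1 / (32 * (d:ℝ) ^ 2)) (by positivity)
      by_cases hcov : ∀ k, k ∉ Z → Covered (toForm t) i₀ Z b w k
      · obtain ⟨b', w', hg', hc'⟩ := all_covered (toForm t) i₀ Z b w hg hcov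
        obtain ⟨r, hr1, hr2⟩ := hasSR_of_good hd (toForm t) b' w' (c := 1 / 2) (by norm_num) hg'
        have hr3 : s ≤ r := by
          apply hs
          have : (fun y : Fin d → Fin n => toForm t (fun i => Pi.single (y i) 1)) = t := by
            funext y
            exact toForm_single t y
          rwa [this] at hr2
        refine ⟨Z, by omega, Or.inr ?_⟩
        have hr4 : (s:ℝ) ≤ r := by exact_mod_cast hr3
        have hr5 : (r:ℝ) * (1 / 2 / d) ^ 2 ≤ N n (cutForm (toForm t) i₀ Z) +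
            1 / (32 * (d:ℝ) ^ 2) := hr1.trans (hc'.trans hc)
        have hr6 : (r:ℝ) = 4 * (d:ℝ) ^ 2 * ((r:ℝ) * (1 / 2 / d) ^ 2) := by
          field_simp
          norm_num
        rw [hr6] at hr4
        refine hr4.trans ?_
        exact mul_le_mul_of_nonneg_left hr5 (by positivity)
      · push Not at hcov
        obtain ⟨k, hk, hkc⟩ := hcov
        have h2 := uncovered_increment (toForm t) i₀ Z k hk b w h0 hg hc hkc
        refine ⟨insert k Z, (Finset.card_insert_le _ _).trans (by omega), Or.inl ?_⟩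
        refine le_trans ?_ h2
        have h3 : (1:ℝ) / (32 * (d:ℝ) ^ 2) ≤ 1 / (32 * d) := by
          apply one_div_le_one_div_of_le (by positivity)
          nlinarith
        have h4 : ((m + 1 : ℕ) : ℝ) / (16 * d) = (m:ℝ) / (16 * d) + 1 / (8 * d)
            - 2 * (1 / (32 * d)) := by
          push_cast
          field_simp
          ring
        rw [h4]
        linarith
    · exact ⟨Z, by omega, Or.inr h⟩

/-- Cutting one direction of a tensor on a box. -/
theorem cut_one (t : (Fin d → Fin n) → F) (i₀ : Fin d) (s : ℕ) (hs : ∀ r, HasSR r t → s ≤ r) :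
    ∃ Z : Finset (Fin n), Z.card ≤ s ∧
      ∀ r, HasSR r (fun y => if y i₀ ∈ Z then t y else 0) → s ≤ 16 * d ^ 2 * r := by
  have hd : 0 < d := i₀.pos
  have hd1 : (1:ℝ) ≤ d := by exact_mod_cast hd
  have hdpos : (0:ℝ) < d := by linarith
  obtain ⟨Z, hZ, h⟩ := greedy t i₀ s hs s
  refine ⟨Z, hZ, fun r hr => ?_⟩
  rcases Nat.eq_zero_or_pos s with h0 | hpos
  · omega
  have hs1 : (1:ℝ) ≤ s := by exact_mod_cast hpos
  have hN := N_le_of_hasSR _ r hr
  rw [← cutForm_toForm] at hN
  have hN0 := N_nonneg (n := n) (cutForm (toForm t) i₀ Z)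
  have hr0 : (0:ℝ) ≤ r := hN0.trans hN
  have hkey : (s:ℝ) ≤ 16 * d ^ 2 * r := by
    rcases h with h | h
    · rw [div_le_iff₀ (by positivity)] at h
      calc (s:ℝ) ≤ r * (16 * d) := h.trans (mul_le_mul_of_nonneg_right hN (by positivity))
        _ = 16 * d * r := by ring
        _ ≤ 16 * d ^ 2 * r := by
          apply mul_le_mul_of_nonneg_right _ hr0
          nlinarith
    · have h1 : 4 * (d:ℝ) ^ 2 * (N n (cutForm (toForm t) i₀ Z) + 1 / (32 * (d:ℝ) ^ 2))
          = 4 * (d:ℝ) ^ 2 * N n (cutForm (toForm t) i₀ Z) + 1 / 8 := by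
        field_simp
        ring
      rw [h1] at h
      have h2 : 4 * (d:ℝ) ^ 2 * N n (cutForm (toForm t) i₀ Z) ≤ 4 * (d:ℝ) ^ 2 * r :=
        mul_le_mul_of_nonneg_left hN (by positivity)
      nlinarith
  exact_mod_cast hkey

end Pool.Agent.Helper41K9.SR
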