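import Mathlib
import Pool.Agent.Helper41K9.SR.Defs
import Pool.Agent.Helper41K9.SR.Lower

set_option autoImplicit false

noncomputable section

namespace Pool.Agent.Helper41K9.SR

variable {F : Type*} [Field F] {d : ℕ}

def HasSRT (r : ℕ) (T : Tensor F d) : Prop :=
  ∃ S : Fin r → Tensor F d, (∀ j, IsSlice (S j)) ∧ T = ∑ j, S j

lemma sliceRank_le {T : Tensor F d} {r : ℕ} (h : HasSRT r T) : sliceRank T ≤ r :=
  Nat.sInf_le h

lemma hasSRT_card (hd : 0 < d) (T : Tensor F d) : HasSRT T.support.card T := by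
  classical
  have h1 : ∀ x : Fin d → ℕ, ∀ a : F, IsSlice (Finsupp.single x a : Tensor F d) := by
    intro x a
    refine ⟨⟨0, hd⟩, fun b => if b = x ⟨0, hd⟩ then a else 0,
      fun y => if ∀ j, j ≠ (⟨0, hd⟩ : Fin d) → y j = x j then 1 else 0, ?_, ?_⟩
    · intro y z hyz
      have : (∀ j, j ≠ (⟨0, hd⟩ : Fin d) → y j = x j) ↔
          (∀ j, j ≠ (⟨0, hd⟩ : Fin d) → z j = x j) :=
        ⟨fun h j hj => (hyz j hj).symm.trans (h j hj), fun h j hj => (hyz j hj).trans (h j hj)⟩
      simp only [this]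
    · intro y
      by_cases hy : y = x
      · subst hy
        simp
      · rw [Finsupp.single_eq_of_ne hy]
        beta_reduce
        by_cases h2 : y ⟨0, hd⟩ = x ⟨0, hd⟩
        · rw [if_neg (c := ∀ j, j ≠ (⟨0, hd⟩ : Fin d) → y j = x j), mul_zero]
          intro h3
          apply hy
          funext j
          by_cases hj : j = ⟨0, hd⟩
          · rw [hj, h2]
          · exact h3 j hj
        · rw [if_neg h2, zero_mul]
  refine ⟨fun j => Finsupp.single (T.support.equivFin.symm j : T.support)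
    (T (T.support.equivFin.symm j : T.support)), fun j => h1 _ _, ?_⟩
  rw [Equiv.sum_comp T.support.equivFin.symm
    (fun p : T.support => (Finsupp.single (p : Fin d → ℕ) (T p) : Tensor F d)),
    Finset.sum_coe_sort T.support (fun p => (Finsupp.single p (T p) : Tensor F d))]
  exact (Finsupp.sum_single T).symm

lemma hasSRT_sliceRank (hd : 0 < d) (T : Tensor F d) : HasSRT (sliceRank T) T :=
  Nat.sInf_mem (s := {r | HasSRT r T}) ⟨_, hasSRT_card hd T⟩

lemma IsSlice.filter {S : Tensor F d} (h : IsSlice S) (i₀ : Fin d) (Z : Finset ℕ) :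
    IsSlice (S.filter fun x => x i₀ ∈ Z) := by
  obtain ⟨i, f, g, hg, hS⟩ := h
  by_cases hi : i = i₀
  · subst hi
    refine ⟨i, fun a => if a ∈ Z then f a else 0, g, hg, fun x => ?_⟩
    rw [Finsupp.filter_apply]
    beta_reduce
    split_ifs
    · exact hS x
    · rw [zero_mul]
  · refine ⟨i, f, fun x => if x i₀ ∈ Z then g x else 0, fun x y hxy => ?_, fun x => ?_⟩
    · have h1 := hxy i₀ (Ne.symm hi)
      simp only [h1, hg x y hxy]
    · rw [Finsupp.filter_apply]
      beta_reduce
      split_ifs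
      · exact hS x
      · rw [mul_zero]

lemma HasSRT.filter {T : Tensor F d} {r : ℕ} (h : HasSRT r T) (i₀ : Fin d) (Z : Finset ℕ) :
    HasSRT r (T.filter fun x => x i₀ ∈ Z) := by
  obtain ⟨S, hS, hT⟩ := h
  refine ⟨fun j => (S j).filter fun x => x i₀ ∈ Z, fun j => (hS j).filter i₀ Z, ?_⟩
  rw [hT]
  ext x
  simp only [Finsupp.filter_apply, Finsupp.coe_finsetSum, Finset.sum_apply]
  split_ifs
  · rfl
  · simp

lemma sliceRank_filter_le (hd : 0 < d) (T : Tensor F d) (i₀ : Fin d) (Z : Finset ℕ) :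
    sliceRank (T.filter fun x => x i₀ ∈ Z) ≤ sliceRank T :=
  sliceRank_le ((hasSRT_sliceRank hd T).filter i₀ Z)

lemma HasSRT.down {T : Tensor F d} {r : ℕ} (h : HasSRT r T) (n : ℕ) :
    HasSR r (fun y : Fin d → Fin n => T fun i => (y i : ℕ)) := by
  obtain ⟨S, hS, hT⟩ := h
  refine ⟨fun j y => S j fun i => (y i : ℕ), fun j => ?_, fun y => ?_⟩
  · obtain ⟨i, f, g, hg, hSj⟩ := hS j
    exact ⟨i, fun a => f a, fun y => g fun i => (y i : ℕ),
      fun x y hxy => hg _ _ fun j hj => congrArg _ (hxy j hj), fun y => hSj _⟩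
  · rw [hT]
    simp only [Finsupp.coe_finsetSum, Finset.sum_apply]

lemma hasSRT_of_box {T : Tensor F d} {r m : ℕ} (hsupp : ∀ x, T x ≠ 0 → ∀ i, x i < m + 1)
    (h : HasSR r (fun y : Fin d → Fin (m + 1) => T fun i => (y i : ℕ))) : HasSRT r T := by
  obtain ⟨S, hS, hT⟩ := h
  set ρ : (Fin d → ℕ) → (Fin d → Fin (m + 1)) := fun x i => Fin.ofNat (m + 1) (x i) with hρ
  have hρx : ∀ x : Fin d → ℕ, (∀ i, x i < m + 1) → (fun i => ((ρ x i : Fin (m+1)) : ℕ)) = x := by
    intro x hx
    funext i
    rw [hρ]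
    simp only [Fin.val_ofNat]
    exact Nat.mod_eq_of_lt (hx i)
  set S' : Fin r → Tensor F d := fun j => Finsupp.onFinset
    (Fintype.piFinset fun _ : Fin d => Finset.range (m + 1))
    (fun x => if ∀ i, x i < m + 1 then S j (ρ x) else 0) (by
      intro x hx
      rw [Fintype.mem_piFinset]
      intro i
      rw [Finset.mem_range]
      by_contra hcon
      apply hx
      rw [if_neg]
      exact fun h => hcon (h i)) with hS'
  have hS'x : ∀ j x, S' j x = if ∀ i, x i < m + 1 then S j (ρ x) else 0 := fun j x => rfl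
  refine ⟨S', fun j => ?_, ?_⟩
  · obtain ⟨i, f, g, hg, hSj⟩ := hS j
    refine ⟨i, fun a => if a < m + 1 then f (Fin.ofNat (m + 1) a) else 0,
      fun x => if ∀ k, k ≠ i → x k < m + 1 then g (ρ x) else 0, ?_, ?_⟩
    · intro x y hxy
      have h1 : (∀ k, k ≠ i → x k < m + 1) ↔ (∀ k, k ≠ i → y k < m + 1) :=
        ⟨fun h k hk => by rw [← hxy k hk]; exact h k hk,
          fun h k hk => by rw [hxy k hk]; exact h k hk⟩
      have h2 : g (ρ x) = g (ρ y) := hg _ _ fun k hk => by
        simp only [hρ, hxy k hk]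
      simp only [h1, h2]
    · intro x
      rw [hS'x]
      beta_reduce
      by_cases h1 : ∀ k, x k < m + 1
      · rw [if_pos h1, if_pos (h1 i), if_pos (fun k _ => h1 k), hSj]
      · rw [if_neg h1]
        by_cases h2 : x i < m + 1
        · have h3 : ¬ ∀ k, k ≠ i → x k < m + 1 := by
            intro h4
            apply h1
            intro k
            by_cases hk : k = i
            · rw [hk]; exact h2
            · exact h4 k hk
          rw [if_neg h3, mul_zero]
        · rw [if_neg h2, zero_mul]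
  · ext x
    simp only [Finsupp.coe_finsetSum, Finset.sum_apply]
    by_cases h1 : ∀ i, x i < m + 1
    · have h2 := hT (ρ x)
      simp only [hρx x h1] at h2
      rw [h2]
      refine Finset.sum_congr rfl fun j _ => ?_
      rw [hS'x, if_pos h1]
    · have h2 : T x = 0 := by
        by_contra h3
        exact h1 (hsupp x h3)
      rw [h2]
      symm
      refine Finset.sum_eq_zero fun j _ => ?_
      rw [hS'x, if_neg h1]

/-- Cutting one direction of a tensor. -/
theorem cut_dir (T : Tensor F d) (i₀ : Fin d) :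
    ∃ Z : Finset ℕ, Z.card ≤ sliceRank T ∧
      sliceRank T ≤ 16 * d ^ 2 * sliceRank (T.filter fun x => x i₀ ∈ Z) := by
  have hd : 0 < d := i₀.pos
  obtain ⟨m, hm⟩ : ∃ m : ℕ, ∀ x, T x ≠ 0 → ∀ i, x i < m + 1 := by
    refine ⟨T.support.sup fun x => Finset.univ.sup x, fun x hx i => ?_⟩
    have h1 : x i ≤ Finset.univ.sup x := Finset.le_sup (Finset.mem_univ i)
    have h2 : Finset.univ.sup x ≤ T.support.sup fun x => Finset.univ.sup x :=
      Finset.le_sup (f := fun x : Fin d → ℕ => Finset.univ.sup x) (Finsupp.mem_support_iff.2 hx)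
    omega
  obtain ⟨Z, hZ, hZ2⟩ := cut_one (fun y : Fin d → Fin (m + 1) => T fun i => (y i : ℕ)) i₀
    (sliceRank T) (fun r hr => sliceRank_le (hasSRT_of_box hm hr))
  refine ⟨Z.map Fin.valEmbedding, by rwa [Finset.card_map], hZ2 _ ?_⟩
  have h1 := (hasSRT_sliceRank hd (T.filter fun x => x i₀ ∈ Z.map Fin.valEmbedding)).down (m + 1)
  convert h1 using 2 with y
  rw [Finsupp.filter_apply]
  have h2 : (y i₀ : ℕ) ∈ Z.map Fin.valEmbedding ↔ y i₀ ∈ Z := by
    constructor
    · intro h
      obtain ⟨a, ha, hay⟩ := Finset.mem_map.1 h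
      have : a = y i₀ := Fin.ext hay
      rwa [← this]
    · intro h
      exact Finset.mem_map.2 ⟨_, h, rfl⟩
  simp only [h2]

theorem cut_dirs (hd : 0 < d) (T : Tensor F d) (I : Finset (Fin d)) :
    ∃ J : Fin d → Finset ℕ, (∀ i, (J i).card ≤ sliceRank T) ∧
      sliceRank (T.filter fun x => ∀ i ∈ I, x i ∈ J i) ≤ sliceRank T ∧
      sliceRank T ≤ (16 * d ^ 2) ^ I.card *
        sliceRank (T.filter fun x => ∀ i ∈ I, x i ∈ J i) := by
  induction I using Finset.induction_on with
  | empty =>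
    have h1 : (T.filter fun x => ∀ i ∈ (∅ : Finset (Fin d)), x i ∈ (∅ : Finset ℕ)) = T := by
      rw [Finsupp.filter_eq_self_iff]
      intro x _ i hi
      exact absurd hi (Finset.notMem_empty i)
    refine ⟨fun _ => ∅, fun i => by simp, ?_, ?_⟩
    · rw [h1]
    · rw [h1, Finset.card_empty, pow_zero, one_mul]
  | insert i₀ I hi₀ ih =>
    obtain ⟨J, hJ1, hJ2, hJ3⟩ := ih
    set T' : Tensor F d := T.filter fun x => ∀ i ∈ I, x i ∈ J i with hT'
    obtain ⟨Z, hZ1, hZ2⟩ := cut_dir T' i₀
    have hTT : (T.filter fun x => ∀ i ∈ insert i₀ I, x i ∈ Function.update J i₀ Z i)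
        = T'.filter fun x => x i₀ ∈ Z := by
      rw [hT']
      ext x
      simp only [Finsupp.filter_apply]
      have h1 : (∀ i ∈ insert i₀ I, x i ∈ Function.update J i₀ Z i) ↔
          (x i₀ ∈ Z ∧ ∀ i ∈ I, x i ∈ J i) := by
        rw [Finset.forall_mem_insert, Function.update_self]
        refine and_congr Iff.rfl (forall₂_congr fun i hi => ?_)
        have hne : i ≠ i₀ := fun h => hi₀ (h ▸ hi)
        rw [Function.update_of_ne hne]
      rw [ite_congr (propext h1) (fun _ => rfl) (fun _ => rfl)]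
      by_cases h2 : x i₀ ∈ Z <;> by_cases h3 : ∀ i ∈ I, x i ∈ J i <;> simp [h2, h3]
    refine ⟨Function.update J i₀ Z, fun i => ?_, ?_, ?_⟩
    · by_cases hi : i = i₀
      · subst hi
        rw [Function.update_self]
        exact hZ1.trans hJ2
      · rw [Function.update_of_ne hi]
        exact hJ1 i
    · rw [hTT]
      exact (sliceRank_filter_le hd T' i₀ Z).trans hJ2
    · rw [hTT, Finset.card_insert_of_notMem hi₀, pow_succ]
      calc sliceRank T ≤ (16 * d ^ 2) ^ I.card * sliceRank T' := hJ3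
        _ ≤ (16 * d ^ 2) ^ I.card * (16 * d ^ 2 * sliceRank (T'.filter fun x => x i₀ ∈ Z)) :=
          Nat.mul_le_mul_left _ hZ2
        _ = _ := by ring

theorem sliceRank_core (hd : 0 < d) (T : Tensor F d) :
    ∃ J : Fin d → Finset ℕ, (∀ i, (J i).card ≤ sliceRank T) ∧
      sliceRank T ≤ (16 * d ^ 2) ^ d * sliceRank (restrict J T) := by
  obtain ⟨J, h1, _, h3⟩ := cut_dirs hd T Finset.univ
  refine ⟨J, h1, ?_⟩
  rw [Finset.card_univ, Fintype.card_fin] at h3
  convert h3 using 3
  unfold restrict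
  congr 1
  simp

/-- For d at most 3, split tensors are slices. -/
lemma isSplit_iff (hd : 2 ≤ d) (hd3 : d ≤ 3) (S : Tensor F d) : IsSplit S ↔ IsSlice S := by
  classical
  constructor
  · rintro ⟨I, f, g, hI, hI2, hf, hg, hS⟩
    have hcard : I.card + Iᶜ.card = d := by
      rw [Finset.card_add_card_compl, Fintype.card_fin]
    have hI3 : 0 < I.card := hI.card_pos
    have hI4 : 0 < Iᶜ.card := by
      rw [Nat.pos_iff_ne_zero, Ne, Finset.card_eq_zero, Finset.compl_eq_empty_iff]
      exact hI2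
    rcases (by omega : I.card = 1 ∨ Iᶜ.card = 1) with h | h
    · obtain ⟨i, rfl⟩ := Finset.card_eq_one.1 h
      refine ⟨i, fun a => f fun _ => a, g, fun x y hxy => hg x y fun j hj =>
        hxy j (fun h => hj (Finset.mem_singleton.2 h)), fun x => ?_⟩
      rw [hS, hf x (fun _ => x i) (fun j hj => by rw [Finset.mem_singleton.1 hj])]
    · obtain ⟨i, hi⟩ := Finset.card_eq_one.1 h
      have hmem : ∀ j, j ∉ I ↔ j = i := by
        intro j
        rw [← Finset.mem_compl, hi, Finset.mem_singleton]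
      refine ⟨i, fun a => g fun _ => a, f, fun x y hxy => hf x y fun j hj =>
        hxy j (fun h => ((hmem j).2 h) hj), fun x => ?_⟩
      rw [hS, hg x (fun _ => x i) (fun j hj => by rw [(hmem j).1 hj]), mul_comm]
  · rintro ⟨i, f, g, hg, hS⟩
    refine ⟨{i}, fun x => f (x i), g, Finset.singleton_nonempty i, ?_, ?_, ?_, hS⟩
    · intro h
      have h1 := congrArg Finset.card h
      rw [Finset.card_singleton, Finset.card_univ, Fintype.card_fin] at h1
      omega
    · intro x y hxy
      exact congrArg f (hxy i (Finset.mem_singleton_self i))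
    · intro x y hxy
      exact hg x y fun j hj => hxy j (fun h => hj (Finset.mem_singleton.1 h))

lemma partitionRank_eq (hd : 2 ≤ d) (hd3 : d ≤ 3) (T : Tensor F d) :
    partitionRank T = sliceRank T := by
  unfold partitionRank sliceRank
  simp only [isSplit_iff hd hd3]

theorem linear_of_core (rk : Tensor F d → ℕ) (C : ℕ) (hC : 0 < C)
    (h : ∀ T : Tensor F d, ∃ J : Fin d → Finset ℕ, (∀ i, (J i).card ≤ rk T) ∧
      rk T ≤ C * rk (restrict J T)) : LinearCoreProperty fun T : Tensor F d => (rk T : ℝ) := by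
  refine ⟨1, 1 / C, one_pos, by positivity, 0, fun T _ => ?_⟩
  obtain ⟨J, h1, h2⟩ := h T
  refine ⟨J, fun i => ?_, ?_⟩
  · beta_reduce
    rw [one_mul]
    exact_mod_cast h1 i
  · have hCpos : (0:ℝ) < C := by exact_mod_cast hC
    beta_reduce
    rw [div_mul_eq_mul_div, one_mul, div_le_iff₀ hCpos, mul_comm]
    exact_mod_cast h2

end Pool.Agent.Helper41K9.SR
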